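import Pool.Agent.H717.PR.Stm

/-! # The four-point condition, and the pairs which are forced to be near or far
(packages FP and FORCE2 of helper717's project PR) -/

set_option autoImplicit false

namespace Pool.Agent.H494.PR

open Pool.Agent.NPC Pool.Agent.H622R2 Pool.Agent.V11227.BT
open Pool.Agent.TH667.PCG (LeafTree)
open Pool.Agent.H717.PR

theorem t_fp : S_fp := by
  intro V t
  constructor
  · intro x y
    exact Pool.Agent.TH667.PCG.tdist_comm _ _ _ _
  · intro x y z u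
    have h := Pool.Agent.TH667.PCG.four_point t.isTree t.w_pos (t.leaf x) (t.leaf z) (t.leaf y)
      (t.leaf u)
    have h2 := Pool.Agent.TH667.PCG.tdist_comm t.isTree t.w (t.leaf z) (t.leaf y)
    rw [h2] at h
    exact h

theorem adj_iff {I : Inst} {t : LeafTree {w : VL // w ∈ vs I}} {dmin dmax : ℝ}
    (h : gr I = t.pcg dmin dmax) {w z : VL} (hw : w ∈ vs I) (hz : z ∈ vs I) (hne : w ≠ z) :
    (adj w z = true ∨ adj z w = true) ↔
      (dmin ≤ t.dist ⟨w, hw⟩ ⟨z, hz⟩ ∧ t.dist ⟨w, hw⟩ ⟨z, hz⟩ ≤ dmax) := by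
  have h1 : (gr I).Adj ⟨w, hw⟩ ⟨z, hz⟩ ↔ (t.pcg dmin dmax).Adj ⟨w, hw⟩ ⟨z, hz⟩ := by rw [h]
  have hne' : (⟨w, hw⟩ : {w : VL // w ∈ vs I}) ≠ ⟨z, hz⟩ := fun e => hne (congrArg Subtype.val e)
  constructor
  · intro h2
    exact (h1.1 ⟨hne', h2⟩).2
  · intro h2
    exact (h1.2 ⟨hne', h2⟩).2

theorem nadj {I : Inst} {t : LeafTree {w : VL // w ∈ vs I}} {dmin dmax : ℝ}
    (h : gr I = t.pcg dmin dmax) {w z : VL} (hw : w ∈ vs I) (hz : z ∈ vs I) (hne : w ≠ z)
    (h1 : adj w z = false) (h2 : adj z w = false) :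
    t.dist ⟨w, hw⟩ ⟨z, hz⟩ < dmin ∨ dmax < t.dist ⟨w, hw⟩ ⟨z, hz⟩ := by
  by_contra hcon
  push Not at hcon
  have := (adj_iff h hw hz hne).2 ⟨hcon.1, hcon.2⟩
  rw [h1, h2] at this
  simp at this

theorem gadget (hN : S_forceNear) {I : Inst} {t : LeafTree {w : VL // w ∈ vs I}} {dmin dmax : ℝ}
    (hFP : Pool.Agent.V11227.PC.FP t.dist) (hle : dmin ≤ dmax)
    (h : gr I = t.pcg dmin dmax) (k : ℕ) (p : Lb × Lb) (hk : k = 1 ∨ k = 6 ∨ k = 10)
    (m0 : (k, p) ∈ vs I) (m1 : (k + 1, p) ∈ vs I) (m2 : (k + 2, p) ∈ vs I) (m3 : (k + 3, p) ∈ vs I)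
    (U V : VL) (hU : U ∈ vs I) (hV : V ∈ vs I) (hUk : U.1 = 0 ∨ U.1 = 5) (hVk : V.1 = 0 ∨ V.1 = 5)
    (hUV : U ≠ V) (aU : ∀ i < 4, adj (k + i, p) U = true) (aV : ∀ i < 4, adj (k + i, p) V = true)
    (n1 : adj U V = false) (n2 : adj V U = false) : t.dist ⟨U, hU⟩ ⟨V, hV⟩ < dmin := by
  have neU : ∀ i < 4, ((k + i, p) : VL) ≠ U := by
    intro i hi e
    have := congrArg Prod.fst e
    simp only at this
    omega
  have neV : ∀ i < 4, ((k + i, p) : VL) ≠ V := by
    intro i hi e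
    have := congrArg Prod.fst e
    simp only at this
    omega
  have key : ∀ i < 4, ∀ hm : (k + i, p) ∈ vs I,
      t.dist ⟨(k + i, p), hm⟩ ⟨U, hU⟩ ≤ dmax ∧ t.dist ⟨(k + i, p), hm⟩ ⟨V, hV⟩ ≤ dmax := by
    intro i hi hm
    exact ⟨((adj_iff h hm hU (neU i hi)).1 (Or.inl (aU i hi))).2,
      ((adj_iff h hm hV (neV i hi)).1 (Or.inl (aV i hi))).2⟩
  have kk : ∀ i j : ℕ, i ≠ j → ((k + i, p) : VL) ≠ (k + j, p) := by
    intro i j hij e
    have := congrArg Prod.fst e
    simp only at this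
    omega
  refine hN _ t.dist dmin dmax hFP hle ⟨U, hU⟩ ⟨V, hV⟩ ⟨(k, p), m0⟩ ⟨(k + 1, p), m1⟩
    ⟨(k + 2, p), m2⟩ ⟨(k + 3, p), m3⟩ ?_ ?_ ?_ ?_ (nadj h hU hV hUV n1 n2)
  · refine ((adj_iff h m0 m1 (kk 0 1 (by norm_num))).1 (Or.inl ?_)).1
    rcases hk with rfl | rfl | rfl <;> simp [adj]
  · refine ((adj_iff h m2 m3 (kk 2 3 (by norm_num))).1 (Or.inl ?_)).1
    rcases hk with rfl | rfl | rfl <;> simp [adj]
  · intro x hx
    simp only [List.mem_cons, List.not_mem_nil, or_false] at hx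
    rcases hx with rfl | rfl | rfl | rfl
    · exact key 0 (by norm_num) m0
    · exact key 1 (by norm_num) m1
    · exact key 2 (by norm_num) m2
    · exact key 3 (by norm_num) m3
  · intro x hx y hy
    simp only [List.mem_cons, List.not_mem_nil, or_false] at hx hy
    rcases hx with rfl | rfl <;> rcases hy with rfl | rfl
    · refine nadj h m0 m2 (kk 0 2 (by norm_num)) ?_ ?_ <;>
        rcases hk with rfl | rfl | rfl <;> simp [adj]
    · refine nadj h m0 m3 (kk 0 3 (by norm_num)) ?_ ?_ <;>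
        rcases hk with rfl | rfl | rfl <;> simp [adj]
    · refine nadj h m1 m2 (kk 1 2 (by norm_num)) ?_ ?_ <;>
        rcases hk with rfl | rfl | rfl <;> simp [adj]
    · refine nadj h m1 m3 (kk 1 3 (by norm_num)) ?_ ?_ <;>
        rcases hk with rfl | rfl | rfl <;> simp [adj]

theorem t_force (h1 : S_mem) (h2 : S_fp) (h3 : S_forceNear) (h4 : S_forceFar) : S_force := by
  intro I t dmin dmax hle h u v hu hv huv
  have bu : u ∈ base I := by
    rcases (h1 I _).1 hu with hh | hh | hh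
    · exact hh.2.2
    · exact absurd hh.1 (by norm_num)
    · exact absurd hh.1 (by norm_num)
  have bv : v ∈ base I := by
    rcases (h1 I _).1 hv with hh | hh | hh
    · exact hh.2.2
    · exact absurd hh.1 (by norm_num)
    · exact absurd hh.1 (by norm_num)
  have hFP := h2 _ t
  constructor
  · intro hn
    have mem : ∀ k, 1 ≤ k → k ≤ 4 → ((k, (u, v)) : VL) ∈ vs I := fun k k1 k2 =>
      (h1 I _).2 (Or.inr (Or.inl ⟨k1, k2, bu, bv, hn⟩))
    refine gadget h3 hFP hle h 1 (u, v) (Or.inl rfl) (mem 1 (by norm_num) (by norm_num))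
      (mem 2 (by norm_num) (by norm_num)) (mem 3 (by norm_num) (by norm_num))
      (mem 4 (by norm_num) (by norm_num)) _ _ hu hv (Or.inl rfl) (Or.inl rfl) ?_ ?_ ?_ ?_ ?_
    · intro e
      exact huv (congrArg (fun z : VL => z.2.1) e)
    · intro i hi
      interval_cases i <;> simp [adj]
    · intro i hi
      interval_cases i <;> simp [adj]
    · simp [adj]
    · simp [adj]
  · intro hf
    have hf' : far I v u = true := by
      unfold far at hf ⊢
      rw [Bool.or_comm]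
      exact hf
    have mem : ∀ k, 5 ≤ k → k ≤ 13 → ((k, (u, v)) : VL) ∈ vs I := fun k k1 k2 =>
      (h1 I _).2 (Or.inr (Or.inr ⟨k1, k2, bu, bv, hf⟩))
    have mem' : ∀ k, 5 ≤ k → k ≤ 13 → ((k, (v, u)) : VL) ∈ vs I := fun k k1 k2 =>
      (h1 I _).2 (Or.inr (Or.inr ⟨k1, k2, bv, bu, hf'⟩))
    have mx := mem 5 (by norm_num) (by norm_num)
    have my := mem' 5 (by norm_num) (by norm_num)
    have hvu : v ≠ u := huv.symm
    refine h4 _ t.dist dmin hFP ⟨(0, (u, u)), hu⟩ ⟨(0, (v, v)), hv⟩ ⟨(5, (u, v)), mx⟩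
      ⟨(5, (v, u)), my⟩ ?_ ?_ ?_ ?_ ?_
    · exact ((adj_iff h mx hu (by simp)).1 (Or.inl (by simp [adj]))).1
    · exact ((adj_iff h my hv (by simp)).1 (Or.inl (by simp [adj]))).1
    · refine gadget h3 hFP hle h 6 (u, v) (Or.inr (Or.inl rfl)) (mem 6 (by norm_num) (by norm_num))
        (mem 7 (by norm_num) (by norm_num)) (mem 8 (by norm_num) (by norm_num))
        (mem 9 (by norm_num) (by norm_num)) _ _ hv mx (Or.inl rfl) (Or.inr rfl) (by simp) ?_ ?_ ?_ ?_
      · intro i hi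
        interval_cases i <;> simp [adj]
      · intro i hi
        interval_cases i <;> simp [adj]
      · simp [adj]
      · simp [adj, hvu]
    · refine gadget h3 hFP hle h 6 (v, u) (Or.inr (Or.inl rfl)) (mem' 6 (by norm_num) (by norm_num))
        (mem' 7 (by norm_num) (by norm_num)) (mem' 8 (by norm_num) (by norm_num))
        (mem' 9 (by norm_num) (by norm_num)) _ _ hu my (Or.inl rfl) (Or.inr rfl) (by simp) ?_ ?_ ?_ ?_
      · intro i hi
        interval_cases i <;> simp [adj]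
      · intro i hi
        interval_cases i <;> simp [adj]
      · simp [adj]
      · simp [adj, huv]
    · refine gadget h3 hFP hle h 10 (u, v) (Or.inr (Or.inr rfl)) (mem 10 (by norm_num) (by norm_num))
        (mem 11 (by norm_num) (by norm_num)) (mem 12 (by norm_num) (by norm_num))
        (mem 13 (by norm_num) (by norm_num)) _ _ mx my (Or.inr rfl) (Or.inr rfl) ?_ ?_ ?_ ?_ ?_
      · intro e
        exact huv (congrArg (fun z : VL => z.2.1) e)
      · intro i hi
        interval_cases i <;> simp [adj]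
      · intro i hi
        interval_cases i <;> simp [adj]
      · simp [adj]
      · simp [adj]

end Pool.Agent.H494.PR
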